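import Pool.Agent.Run7.h99.Main

/-!
# Isolated fixed points of elementary abelian `p`-groups on separably rationally connected varieties

`k` is an algebraically closed field of characteristic `p > 0` and `V` is a smooth variety over `k`,
not necessarily proper, with a very free morphism `P1 ⟶ V`; for instance `V` is any separably
rationally connected variety. Let `E` be a group of automorphisms of `V`, commutative and killed by
`p`, with an isolated fixed point `z`. We prove that `z` is the only fixed point of `E`. So every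
automorphism of `V`, of finite or infinite order, which normalizes `E` has the fixed point `z`.

All definitions which occur in the statement are in this file. The proof is in the folder
`Pool/Agent/Run7/h99`, and it uses the files `Pool/Agent/H19VF`.
-/

set_option autoImplicit false

open AlgebraicGeometry CategoryTheory Polynomial

universe u

namespace Pool.Agent.Results.MP_f329a5_ag.IsolatedFixedPoint

/-! ## The projective line and its standard charts -/

section P1

attribute [local instance] MvPolynomial.gradedAlgebra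

variable (k : Type u) [Field k]

/-- The grading of `k[X₀, X₁]` by the degree. -/
noncomputable abbrev gr : ℕ → Submodule k (MvPolynomial (Fin 2) k) :=
  MvPolynomial.homogeneousSubmodule (Fin 2) k

/-- The projective line over `k`. -/
noncomputable def P1 : Scheme.{u} := Proj (gr k)

/-- The structure morphism of the projective line. -/
noncomputable def P1.str : P1 k ⟶ Spec (.of k) :=
  Proj.toSpecZero (gr k) ≫ Spec.map (CommRingCat.ofHom (algebraMap k (gr k 0)))

/-- Dehomogenization: a fraction of degree zero with denominator a power of `X i` is mapped to the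
polynomial obtained by `X i ↦ 1` and `X j ↦ X` for `j ≠ i`. -/
noncomputable def deh (i : Fin 2) :
    HomogeneousLocalization.Away (gr k) (MvPolynomial.X i : MvPolynomial (Fin 2) k) →+* k[X] :=
  (IsLocalization.Away.lift (S := Localization.Away (MvPolynomial.X i : MvPolynomial (Fin 2) k))
    (MvPolynomial.X i : MvPolynomial (Fin 2) k)
    (g := (MvPolynomial.aeval (fun j => if j = i then (1 : k[X]) else X) :
      MvPolynomial (Fin 2) k →ₐ[k] k[X]).toRingHom) (by simp)).comp
    (algebraMap (HomogeneousLocalization.Away (gr k) (MvPolynomial.X i : MvPolynomial (Fin 2) k))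
      (Localization.Away (MvPolynomial.X i : MvPolynomial (Fin 2) k)))

/-- The standard affine charts of the projective line: for `i = 0` the coordinate of the chart is
`y = X₁ / X₀` and for `i = 1` it is `w = X₀ / X₁`. -/
noncomputable def P1.chart (i : Fin 2) : Spec (.of k[X]) ⟶ P1 k :=
  Spec.map (CommRingCat.ofHom (deh k i)) ≫
    Proj.awayι (gr k) (MvPolynomial.X i : MvPolynomial (Fin 2) k) (m := 1)
      ((MvPolynomial.mem_homogeneousSubmodule _ _).2 (MvPolynomial.isHomogeneous_X k i))
      zero_lt_one

end P1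

variable {k : Type u} [Field k] {V : Scheme.{u}} {π : V ⟶ Spec (.of k)}

/-! ## Points with values in rings, tangent fields

For a morphism `p : Spec R ⟶ V`, the sections over `Spec R` of the pull back `p^* T_V` of the
tangent sheaf are the morphisms `Spec R[ε] ⟶ V` over `k` which restrict to `p` on `Spec R`; we call
them tangent fields along `p`. For `R = k` these are the tangent vectors of `V` at the point `p`. -/

/-- The points of the `k`-scheme `π : V ⟶ Spec k` with values in the `k`-algebra `R`: the morphisms
`Spec R ⟶ V` over `k`. -/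
noncomputable def Pt (π : V ⟶ Spec (.of k)) (R : Type u) [CommRing R] [Algebra k R] : Type u :=
  {g : Spec (.of R) ⟶ V // g ≫ π = Spec.map (CommRingCat.ofHom (algebraMap k R))}

/-- The image of a point under a homomorphism of `k`-algebras. -/
noncomputable def Pt.map {R R' : Type u} [CommRing R] [Algebra k R] [CommRing R'] [Algebra k R']
    (p : Pt π R) (φ : R →ₐ[k] R') : Pt π R' :=
  ⟨Spec.map (CommRingCat.ofHom φ.toRingHom) ≫ p.1, by
    rw [Category.assoc, p.2, ← Spec.map_comp, ← CommRingCat.ofHom_comp]
    congr 2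
    exact φ.comp_algebraMap⟩

/-- `τ` is a tangent field along `p`: its restriction along `R[ε] → R`, `ε ↦ 0`, is `p`. -/
def IsAlong {R : Type u} [CommRing R] [Algebra k R] (τ : Pt π (DualNumber R))
    (p : Spec (.of R) ⟶ V) : Prop :=
  (τ.map (TrivSqZeroExt.fstHom k R R)).1 = p

/-- The homomorphism `R[ε] → R'[ε]`, `r + s ε ↦ φ r + φ s ε`, induced by `φ : R → R'`. -/
noncomputable def dmap {R R' : Type u} [CommRing R] [Algebra k R] [CommRing R'] [Algebra k R']
    (φ : R →ₐ[k] R') : DualNumber R →ₐ[k] DualNumber R' where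
  toFun x := TrivSqZeroExt.inl (φ x.fst) + TrivSqZeroExt.inr (φ x.snd)
  map_one' := by ext <;> simp
  map_mul' x y := by ext <;> simp [mul_comm]
  map_zero' := by ext <;> simp
  map_add' x y := by ext <;> simp
  commutes' r := by ext <;> simp [TrivSqZeroExt.algebraMap_eq_inl']

/-- The homomorphism `R[ε] → R[ε]`, `ε ↦ r ε`. The image of a tangent field `τ` is `r • τ`. -/
noncomputable def scl (k : Type u) [Field k] {R : Type u} [CommRing R] [Algebra k R] (r : R) :
    DualNumber R →ₐ[k] DualNumber R where
  toFun x := TrivSqZeroExt.inl x.fst + TrivSqZeroExt.inr (r * x.snd)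
  map_one' := by ext <;> simp
  map_mul' x y := by
    ext
    · simp
    · simp
      ring
  map_zero' := by ext <;> simp
  map_add' x y := by ext <;> simp [mul_add]
  commutes' r := by ext <;> simp [TrivSqZeroExt.algebraMap_eq_inl']

/-- The homomorphism `R ⊕ R^n → R[ε]`, `(r, x) ↦ r + (∑ c i * x i) ε`, on the square zero extension
of `R` by `R^n`. -/
noncomputable def lin (k : Type u) [Field k] {R : Type u} [CommRing R] [Algebra k R] {n : ℕ}
    (c : Fin n → R) : TrivSqZeroExt R (Fin n → R) →ₐ[k] DualNumber R where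
  toFun x := TrivSqZeroExt.inl x.fst + TrivSqZeroExt.inr (∑ i, c i * x.snd i)
  map_one' := by ext <;> simp
  map_mul' x y := by
    ext
    · simp
    · simp only [TrivSqZeroExt.fst_mul, TrivSqZeroExt.snd_mul, TrivSqZeroExt.snd_add,
        TrivSqZeroExt.snd_inl, TrivSqZeroExt.snd_inr, zero_add, TrivSqZeroExt.fst_add,
        TrivSqZeroExt.fst_inl, TrivSqZeroExt.fst_inr, add_zero, Pi.add_apply, Pi.smul_apply,
        smul_eq_mul, MulOpposite.smul_eq_mul_unop, MulOpposite.unop_op, Finset.mul_sum,
        Finset.sum_mul]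
      rw [← Finset.sum_add_distrib]
      refine Finset.sum_congr rfl fun i _ => by ring
  map_zero' := by ext <;> simp
  map_add' x y := by
    ext
    · simp
    · simp [mul_add, Finset.sum_add_distrib]
  commutes' r := by ext <;> simp [TrivSqZeroExt.algebraMap_eq_inl']

/-- `τ` is the linear combination `∑ c i • e i` of the tangent fields `e i` along the same
morphism: there is a morphism `Spec (R ⊕ R^n) ⟶ V` with components `e i` (a tuple of tangent fields
along the same morphism is the same as such a morphism) whose restriction along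
`(r, x) ↦ r + (∑ c i * x i) ε` is `τ`. -/
def IsComb {R : Type u} [CommRing R] [Algebra k R] {n : ℕ} (e : Fin n → Pt π (DualNumber R))
    (c : Fin n → R) (τ : Pt π (DualNumber R)) : Prop :=
  ∃ ρ : Pt π (TrivSqZeroExt R (Fin n → R)), (∀ i, ρ.map (lin k (Pi.single i 1)) = e i) ∧
    ρ.map (lin k c) = τ

/-- The `e i` form a basis of the tangent space of `V` at the point `p : Spec k ⟶ V`. -/
def IsTanBasis (p : Spec (.of k) ⟶ V) {n : ℕ} (e : Fin n → Pt π (DualNumber k)) : Prop :=
  (∀ i, IsAlong (e i) p) ∧
    ∀ τ : Pt π (DualNumber k), IsAlong τ p → ∃! c : Fin n → k, IsComb e c τ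

/-! ## Very free morphisms -/

/-- Evaluation of polynomials at `x`. -/
noncomputable def ev (x : k) : k[X] →ₐ[k] k := Polynomial.aeval x

/-- The embedding `k[y] → k[T, T⁻¹]`, `y ↦ T`: the overlap of the two standard charts of the
projective line as an open subscheme of the chart with coordinate `y`. -/
noncomputable def incY (k : Type u) [Field k] : k[X] →ₐ[k] LaurentPolynomial k :=
  Polynomial.aeval (LaurentPolynomial.T 1)

/-- The embedding `k[w] → k[T, T⁻¹]`, `w ↦ T⁻¹`: the overlap of the two standard charts of the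
projective line as an open subscheme of the chart with coordinate `w = 1 / y`. -/
noncomputable def incW (k : Type u) [Field k] : k[X] →ₐ[k] LaurentPolynomial k :=
  Polynomial.aeval (LaurentPolynomial.T (-1))

/-- `f^* T_V ≅ ⊕ O(a i)`: there are tangent fields `e i` along the restriction of `f` to the
standard chart of the projective line with coordinate `y`, and `e' i` along the restriction to the
chart with coordinate `w = 1 / y`, with `e i = y ^ (- a i) • e' i` on the overlap, such that at each
closed point of the charts they form a basis of the tangent space of `V` at the image point. (On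
the overlap the standard generators `X₀ ^ a` and `X₁ ^ a` of `O(a)` on the two charts satisfy
`X₀ ^ a = y ^ (- a) * X₁ ^ a`. So the `e i`, `e' i` are a homomorphism of vector bundles from
`⊕ O(a i)` to `f^* T_V`, and it is an isomorphism on the fibres at all closed points.) -/
def HasSplitting (π : V ⟶ Spec (.of k)) (f : P1 k ⟶ V) {n : ℕ} (a : Fin n → ℤ) : Prop :=
  ∃ e e' : Fin n → Pt π (DualNumber k[X]),
    (∀ i, IsAlong (e i) (P1.chart k 0 ≫ f)) ∧ (∀ i, IsAlong (e' i) (P1.chart k 1 ≫ f)) ∧
    (∀ i, (e i).map (dmap (incY k)) =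
      ((e' i).map (dmap (incW k))).map (scl k (LaurentPolynomial.T (-(a i))))) ∧
    (∀ x : k, IsTanBasis (Spec.map (CommRingCat.ofHom (ev x).toRingHom) ≫ P1.chart k 0 ≫ f)
      (fun i => (e i).map (dmap (ev x)))) ∧
    (∀ x : k, IsTanBasis (Spec.map (CommRingCat.ofHom (ev x).toRingHom) ≫ P1.chart k 1 ≫ f)
      (fun i => (e' i).map (dmap (ev x))))

/-- The `k`-morphism `f : P1 ⟶ V` is very free: `f^* T_V` is isomorphic to a direct sum of line
bundles `O(a i)` with all `a i ≥ 1`. -/
def IsVeryFree (π : V ⟶ Spec (.of k)) (f : P1 k ⟶ V) : Prop :=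
  f ≫ π = P1.str k ∧ ∃ (n : ℕ) (a : Fin n → ℤ), (∀ i, 1 ≤ a i) ∧ HasSplitting π f a

/-! ## Fixed points -/

/-- The group of automorphisms of the `k`-scheme `π : V ⟶ Spec k`. The product is composition,
`(g * h) v = g (h v)`. -/
noncomputable abbrev AutK (π : V ⟶ Spec (.of k)) : Type u := Aut (Over.mk π)

/-- The image of the point `v` under the automorphism `g`. -/
noncomputable def img (g : AutK π) (v : V) : V := g.hom.left v

/-- `v` is a fixed point of the group `E`: a closed point which is fixed by all elements of `E`. -/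
def IsFixedPoint (E : Subgroup (AutK π)) (v : V) : Prop :=
  IsClosed ({v} : Set V) ∧ ∀ a ∈ E, img a v = v

/-- `v` is an isolated fixed point of the group `E`: it has an open neighbourhood which contains no
other fixed point of `E`. -/
def IsIsolatedFixedPoint (E : Subgroup (AutK π)) (v : V) : Prop :=
  IsFixedPoint E v ∧ ∃ U : V.Opens, v ∈ U ∧ ∀ w ∈ U, IsFixedPoint E w → w = v

/-! ## Comparison with the definitions used in the proof -/

theorem incY_eq : H19VF.lauY k k = incY k := rfl

theorem incW_eq : H19VF.lauW k k = incW k := rfl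

theorem ev_eq (x : k) : (H19VF.evk x : k[X] →ₐ[k] k) = ev x := rfl

theorem isAlong_iff {R : Type u} [CommRing R] [Algebra k R] (τ : Pt π (DualNumber R))
    (p : Pt π R) : IsAlong τ p.1 ↔ H19VF.Pt.map (π := π) τ (H19VF.dfst k R) = p := by
  constructor
  · intro h
    exact Subtype.ext h
  · intro h
    exact congrArg Subtype.val h

theorem isTanBasis_iff (p : Pt π k) {n : ℕ} (e : Fin n → Pt π (DualNumber k)) :
    IsTanBasis p.1 e ↔ H19VF.IsTanBasis (π := π) p e := by
  constructor
  · rintro ⟨h1, h2⟩
    exact ⟨fun i => (isAlong_iff _ _).1 (h1 i), fun τ hτ => h2 τ ((isAlong_iff _ _).2 hτ)⟩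
  · rintro ⟨h1, h2⟩
    exact ⟨fun i => (isAlong_iff _ _).2 (h1 i), fun τ hτ => h2 τ ((isAlong_iff _ _).1 hτ)⟩

theorem isSplit_iff (f : P1 k ⟶ V) (hf : f ≫ π = P1.str k) {n : ℕ} (a : Fin n → ℤ) :
    HasSplitting π f a ↔ H19VF.IsSplit (H19VF.Crv.ofHom f hf) a := by
  constructor
  · rintro ⟨e, e', h1, h2, h3, h4, h5⟩
    exact ⟨e, e', fun i => (isAlong_iff _ (H19VF.Crv.ofHom f hf).y).1 (h1 i),
      fun i => (isAlong_iff _ (H19VF.Crv.ofHom f hf).w).1 (h2 i), h3,
      fun x => (isTanBasis_iff ((H19VF.Crv.ofHom f hf).y.map (H19VF.evk x)) _).1 (h4 x),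
      fun x => (isTanBasis_iff ((H19VF.Crv.ofHom f hf).w.map (H19VF.evk x)) _).1 (h5 x)⟩
  · rintro ⟨e, e', h1, h2, h3, h4, h5⟩
    exact ⟨e, e', fun i => (isAlong_iff _ (H19VF.Crv.ofHom f hf).y).2 (h1 i),
      fun i => (isAlong_iff _ (H19VF.Crv.ofHom f hf).w).2 (h2 i), h3,
      fun x => (isTanBasis_iff ((H19VF.Crv.ofHom f hf).y.map (H19VF.evk x)) _).2 (h4 x),
      fun x => (isTanBasis_iff ((H19VF.Crv.ofHom f hf).w.map (H19VF.evk x)) _).2 (h5 x)⟩

theorem img_mul (g h : AutK π) (v : V) : img (g * h) v = img g (img h v) := rfl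

theorem img_one (v : V) : img (1 : AutK π) v = v := rfl

theorem isClosed_img (g : AutK π) (v : V) (hv : IsClosed ({v} : Set V)) :
    IsClosed ({img g v} : Set V) := by
  have e1 : g.hom ≫ g.inv = 𝟙 (Over.mk π) := Iso.hom_inv_id (g : Over.mk π ≅ Over.mk π)
  have e2 : g.inv ≫ g.hom = 𝟙 (Over.mk π) := Iso.inv_hom_id (g : Over.mk π ≅ Over.mk π)
  have h1 : IsIso g.hom.left := ⟨g.inv.left, congrArg Over.Hom.left e1, congrArg Over.Hom.left e2⟩
  have h2 := (g.hom.left : V ⟶ V).isClosedEmbedding.isClosedMap _ hv
  rw [Set.image_singleton] at h2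
  exact h2

/-- Let `k` be an algebraically closed field of characteristic `p > 0`, let `V` be a smooth variety
over `k`, not necessarily proper, which admits a very free morphism from the projective line, and
let `E` be a group of `k`-automorphisms of `V` which is commutative and killed by `p` (an elementary
abelian `p`-group, possibly infinite). Let `z` be an isolated fixed point of `E`. Then `z` is the
only fixed point of `E`, and every `k`-automorphism `g` of `V` with `g⁻¹ E g ⊆ E` fixes `z`. -/
theorem result (p : ℕ) [Fact p.Prime] (k : Type u) [Field k] [IsAlgClosed k] [CharP k p]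
    (V : Scheme.{u}) (π : V ⟶ Spec (.of k)) [IsIntegral V] [IsSeparated π] [LocallyOfFiniteType π]
    [QuasiCompact π] [Smooth π] (h : ∃ f : P1 k ⟶ V, IsVeryFree π f) (E : Subgroup (AutK π))
    (hcomm : ∀ a ∈ E, ∀ b ∈ E, a * b = b * a) (hp : ∀ a ∈ E, a ^ p = 1) (z : V)
    (hz : IsIsolatedFixedPoint E z) :
    (∀ v : V, IsFixedPoint E v → v = z) ∧
      ∀ g : AutK π, (∀ a ∈ E, g⁻¹ * a * g ∈ E) → img g z = z := by
  obtain ⟨f0, hf0, n0, a0, ha0, hs0⟩ := h
  have hvf : H19VF.IsVeryFree (H19VF.Crv.ofHom f0 hf0) :=
    H19VF.isVeryFree_of_isSplit _ a0 ((isSplit_iff f0 hf0 a0).1 hs0) ha0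
  obtain ⟨⟨hz1, hz2⟩, U, hzU, hU⟩ := hz
  let _ : CommGroup E :=
    { (inferInstance : Group E) with
      mul_comm := fun a b => Subtype.ext (hcomm a.1 a.2 b.1 b.2) }
  have key : ∀ v : V, IsFixedPoint E v → v = z := by
    intro v hv
    exact Run7.h99.main_unique p (H19VF.Crv.ofHom f0 hf0) hvf (E := E)
      (fun e => Subtype.ext (hp e.1 e.2)) E.subtype z hz1 (fun e => hz2 e.1 e.2) U hzU
      (fun w hw hw1 hw2 => hU w hw ⟨hw1, fun a ha => hw2 ⟨a, ha⟩⟩) v hv.1
      (fun e => hv.2 e.1 e.2)
  refine ⟨key, fun g hg => key _ ⟨isClosed_img g z hz1, fun a ha => ?_⟩⟩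
  have h1 : img g (img (g⁻¹ * a * g) z) = img g z := by rw [hz2 _ (hg a ha)]
  rw [← img_mul, mul_assoc, mul_inv_cancel_left, img_mul] at h1
  exact h1

end Pool.Agent.Results.MP_f329a5_ag.IsolatedFixedPoint
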